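import Pool.Agent.Helper31.LQ.Goals

/-! PV -/

open MeasureTheory Set
open scoped ENNReal Matrix RealInnerProductSpace

noncomputable section

namespace Pool.Agent.Helper20.LQ

open Pool.Agent.Helper31.LQ

/-- coordinates in an orthonormal basis, as a measurable equivalence -/
def coord {d : ℕ} {S : Type*} [NormedAddCommGroup S] [InnerProductSpace ℝ S]
    [FiniteDimensional ℝ S] [MeasurableSpace S] [BorelSpace S]
    (b : OrthonormalBasis (Fin d) ℝ S) : S ≃ᵐ (Fin d → ℝ) :=
  b.measurableEquiv.trans (MeasurableEquiv.toLp 2 (Fin d → ℝ)).symm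

theorem coord_apply {d : ℕ} {S : Type*} [NormedAddCommGroup S] [InnerProductSpace ℝ S]
    [FiniteDimensional ℝ S] [MeasurableSpace S] [BorelSpace S]
    (b : OrthonormalBasis (Fin d) ℝ S) (y : S) (c : Fin d) : coord b y c = ⟪b c, y⟫ := by
  rw [← b.repr_apply_apply]
  rfl

theorem coord_mp {d : ℕ} {S : Type*} [NormedAddCommGroup S] [InnerProductSpace ℝ S]
    [FiniteDimensional ℝ S] [MeasurableSpace S] [BorelSpace S]
    (b : OrthonormalBasis (Fin d) ℝ S) : MeasurePreserving (coord b) volume volume :=
  b.measurePreserving_measurableEquiv.trans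
    (EuclideanSpace.volume_preserving_symm_measurableEquiv_toLp (Fin d))

theorem coord_image {d : ℕ} {S : Type*} [NormedAddCommGroup S] [InnerProductSpace ℝ S]
    [FiniteDimensional ℝ S] [MeasurableSpace S] [BorelSpace S]
    (b : OrthonormalBasis (Fin d) ℝ S) (A : Set S) : volume (coord b '' A) = volume A := by
  rw [← (coord_mp b).measure_preimage_equiv, (coord b).injective.preimage_image]

theorem gPV : Pool.Agent.Helper31.LQ.PV := by
  intro n d g hg K
  set S := Submodule.span ℝ (range g) with hS
  have hdim : Module.finrank ℝ S = d := by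
    rw [hS, finrank_span_eq_card hg, Fintype.card_fin]
  set b : OrthonormalBasis (Fin d) ℝ S :=
    (stdOrthonormalBasis ℝ S).reindex (finCongr hdim) with hb
  have hproj : projVol K S = volume ((fun x : E n => S.orthogonalProjectionOnto x) '' K) := by
    unfold projVol
    rw [(stdOrthonormalBasis ℝ S).addHaar_eq_volume]
  set M : Matrix (Fin d) (Fin d) ℝ := Matrix.of fun a c => ⟪g a, (b c : E n)⟫ with hM
  have hgS : ∀ a, g a ∈ S := fun a => Submodule.subset_span ⟨a, rfl⟩
  -- the linear map
  have hlin : ∀ x : E n, lin (fun (l : Fin n) (a : Fin d) => g a l) x.ofLp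
      = Matrix.toLin' M (coord b (S.orthogonalProjectionOnto x)) := by
    intro x
    funext a
    rw [Matrix.toLin'_apply, Matrix.mulVec, dotProduct]
    have h1 : lin (fun (l : Fin n) (a : Fin d) => g a l) x.ofLp a = ⟪g a, x⟫ := by
      rw [lin, PiLp.inner_apply]
      rfl
    have h2 : ⟪g a, x⟫ = ⟪(⟨g a, hgS a⟩ : S), S.orthogonalProjectionOnto x⟫ := by
      rw [Submodule.inner_orthogonalProjectionOnto_eq_of_mem_left]
    rw [h1, h2, ← b.sum_inner_mul_inner]
    refine Finset.sum_congr rfl fun c _ => ?_
    rw [coord_apply]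
    rfl
  have himg : lin (fun (l : Fin n) (a : Fin d) => g a l) '' ((fun x : E n => x.ofLp) '' K)
      = Matrix.toLin' M '' (coord b '' ((fun x : E n => S.orthogonalProjectionOnto x) '' K)) := by
    rw [image_image, image_image, image_image]
    exact image_congr fun x _ => hlin x
  have hdet : (grm 1 (fun (l : Fin n) (a : Fin d) => g a l)) = M * Mᵀ := by
    ext a c
    have h1 : (M * Mᵀ) a c = ⟪g a, g c⟫ := by
      rw [Matrix.mul_apply]
      have h2 : ⟪g a, g c⟫ = ⟪(⟨g a, hgS a⟩ : S), ⟨g c, hgS c⟩⟫ := rfl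
      rw [h2, ← b.sum_inner_mul_inner]
      refine Finset.sum_congr rfl fun e _ => ?_
      rw [Matrix.transpose_apply, hM, Matrix.of_apply, Matrix.of_apply,
        real_inner_comm (b e : E n) (g c)]
      rfl
    rw [h1, grm, Matrix.of_apply, PiLp.inner_apply]
    refine Finset.sum_congr rfl fun l _ => ?_
    simp [Matrix.one_apply, mul_comm]
  rw [himg, MeasureTheory.Measure.addHaar_image_linearMap, coord_image, hproj, mul_comm,
    LinearMap.det_toLin', hdet, Matrix.det_mul, Matrix.det_transpose, Real.sqrt_mul_self_eq_abs]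

end Pool.Agent.Helper20.LQ
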